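import Mathlib

set_option autoImplicit false

open MeasureTheory Filter Topology Finset
open scoped NNReal ENNReal BoundedContinuousFunction

namespace Pool.Agent.Results.MP_b5523b_pr.BigeodesicEnvironment

/-- the vertices of the planar lattice -/
abbrev V := ℤ × ℤ

/-- the nearest-neighbour edges of the planar lattice: `(v, false)` is the edge from `v` to
`v + (1, 0)` and `(v, true)` is the edge from `v` to `v + (0, 1)` -/
abbrev E := V × Bool

/-- environments -/
abbrev Env := E → ℝ≥0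

/-- nearest neighbours -/
def Adj (u v : V) : Prop :=
  v = u + (1, 0) ∨ u = v + (1, 0) ∨ v = u + (0, 1) ∨ u = v + (0, 1)

/-- the edge between two nearest neighbours -/
def edge (u v : V) : E :=
  if v = u + (1, 0) then (u, false) else if u = v + (1, 0) then (v, false)
  else if v = u + (0, 1) then (u, true) else (v, true)

/-- the weight of the edge between two nearest neighbours -/
def wt (ω : Env) (u v : V) : ℝ≥0 := ω (edge u v)

/-- `p 0, …, p n` is a lattice path -/
def IsPath (p : ℕ → V) (n : ℕ) : Prop := ∀ i < n, Adj (p i) (p (i + 1))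

/-- the passage time of the path `p 0, …, p n` -/
def len (ω : Env) (p : ℕ → V) (n : ℕ) : ℝ≥0 := ∑ i ∈ range n, wt ω (p i) (p (i + 1))

/-- the first-passage time `T(x, y)` -/
noncomputable def T (ω : Env) (x y : V) : ℝ≥0 :=
  sInf {t | ∃ (n : ℕ) (p : ℕ → V), IsPath p n ∧ p 0 = x ∧ p n = y ∧ t = len ω p n}

/-- the vertices `γ k`, `k ∈ S`, form a geodesic: a self-avoiding nearest-neighbour path every
finite segment of which attains the first-passage time between its endpoints.
(`S` is an interval of integers; `S = Set.Ici 0` gives the infinite geodesics `γ 0, γ 1, …`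
and `S = Set.univ` the bi-infinite ones.) -/
def IsGeodesicOn (ω : Env) (γ : ℤ → V) (S : Set ℤ) : Prop :=
  (∀ k, k ∈ S → k + 1 ∈ S → Adj (γ k) (γ (k + 1))) ∧ Set.InjOn γ S ∧
    ∀ i ∈ S, ∀ j ∈ S, i ≤ j → ∑ k ∈ Ico i j, wt ω (γ k) (γ (k + 1)) = T ω (γ i) (γ j)

/-- the shift of an environment -/
def shift (v : V) (ω : Env) : Env := fun e => ω (e.1 + v, e.2)

/-- the environments with a bi-infinite geodesic through the origin -/
def Bi : Set Env := {ω | ∃ γ : ℤ → V, γ 0 = 0 ∧ IsGeodesicOn ω γ Set.univ}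

/-- `ν` is a weak limit, along some subsequence, of the empirical measures
`(δ_{σ_{γ 0} ω} + ⋯ + δ_{σ_{γ (n - 1)} ω}) / n` of the environment seen along `γ`
(`φ n = n` gives the case of a limit of the whole sequence) -/
def IsWeakLimit (ω : Env) (γ : ℤ → V) (ν : Measure Env) : Prop :=
  ∃ φ : ℕ → ℕ, StrictMono φ ∧ ∀ f : Env →ᵇ ℝ,
    Tendsto (fun n : ℕ => (∑ k ∈ range (φ n), f (shift (γ (k : ℤ)) ω)) / (φ n : ℝ)) atTop
      (𝓝 (∫ x, f x ∂ν))

/-! ### Paths, reformulations -/

theorem T_le {ω : Env} {p : ℕ → V} {n : ℕ} (hp : IsPath p n) : T ω (p 0) (p n) ≤ len ω p n :=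
  csInf_le' ⟨n, p, hp, rfl, rfl, rfl⟩

theorem le_T {ω : Env} {x y : V} {t : ℝ≥0} (n0 : ℕ) (p0 : ℕ → V) (hp0 : IsPath p0 n0)
    (h0 : p0 0 = x) (h0' : p0 n0 = y)
    (h : ∀ (n : ℕ) (p : ℕ → V), IsPath p n → p 0 = x → p n = y → t ≤ len ω p n) : t ≤ T ω x y := by
  refine le_csInf ⟨_, n0, p0, hp0, h0, h0', rfl⟩ ?_
  rintro _ ⟨n, p, h1, h2, h3, rfl⟩
  exact h n p h1 h2 h3

/-- the segment from `i` to `j`, as a path starting at time `0` -/
theorem seg_len (ω : Env) (γ : ℤ → V) {i j : ℤ} (hij : i ≤ j) :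
    len ω (fun l => γ (i + l)) (j - i).toNat = ∑ k ∈ Ico i j, wt ω (γ k) (γ (k + 1)) := by
  unfold len
  obtain ⟨n, rfl⟩ : ∃ n : ℕ, j = i + n := ⟨(j - i).toNat, by omega⟩
  have h1 : (i + n - i).toNat = n := by omega
  rw [h1]
  clear hij h1
  induction n with
  | zero => simp
  | succ n ih =>
    rw [sum_range_succ, ih]
    have h2 : Ico i (i + ((n + 1 : ℕ) : ℤ)) = insert (i + (n : ℤ)) (Ico i (i + n)) := by
      ext x
      simp only [mem_Ico, Finset.mem_insert]
      push_cast
      omega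
    rw [h2, sum_insert (by simp)]
    rw [add_comm]
    congr 2
    push_cast
    ring_nf

theorem seg_path {γ : ℤ → V} {S : Set ℤ} (hS : S.OrdConnected)
    (h : ∀ k, k ∈ S → k + 1 ∈ S → Adj (γ k) (γ (k + 1))) {i j : ℤ} (hi : i ∈ S) (hj : j ∈ S) :
    IsPath (fun l => γ (i + l)) (j - i).toNat := by
  intro l hl
  have h1 : i + (l : ℤ) ∈ S := hS.out hi hj ⟨by omega, by omega⟩
  have h2 : i + (l : ℤ) + 1 ∈ S := hS.out hi hj ⟨by omega, by omega⟩
  have h3 := h _ h1 h2
  simpa [add_assoc] using h3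

/-- the geodesic condition without infimum -/
def Geo (ω : Env) (γ : ℤ → V) (S : Set ℤ) : Prop :=
  (∀ k, k ∈ S → k + 1 ∈ S → Adj (γ k) (γ (k + 1))) ∧ Set.InjOn γ S ∧
    ∀ i ∈ S, ∀ j ∈ S, i ≤ j → ∀ (n : ℕ) (p : ℕ → V), IsPath p n → p 0 = γ i → p n = γ j →
      ∑ k ∈ Ico i j, wt ω (γ k) (γ (k + 1)) ≤ len ω p n

theorem geo_iff {ω : Env} {γ : ℤ → V} {S : Set ℤ} (hS : S.OrdConnected) :
    IsGeodesicOn ω γ S ↔ Geo ω γ S := by
  constructor
  · rintro ⟨h1, h2, h3⟩
    refine ⟨h1, h2, fun i hi j hj hij n p hp hp0 hpn => ?_⟩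
    rw [h3 i hi j hj hij, ← hp0, ← hpn]
    exact T_le hp
  · rintro ⟨h1, h2, h3⟩
    refine ⟨h1, h2, fun i hi j hj hij => ?_⟩
    have hp := seg_path hS h1 hi hj
    have e1 : γ (i + ((0 : ℕ) : ℤ)) = γ i := by simp
    have e2 : γ (i + (((j - i).toNat : ℕ) : ℤ)) = γ j := by
      congr 1
      omega
    apply le_antisymm
    · exact le_T _ _ hp e1 e2 (fun n p => h3 i hi j hj hij n p)
    · have := T_le (ω := ω) hp
      rw [seg_len ω γ hij] at this
      simp only [e1, e2] at this
      exact this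

theorem Geo.mono {ω : Env} {γ : ℤ → V} {S S' : Set ℤ} (h : S' ⊆ S) (hG : Geo ω γ S) :
    Geo ω γ S' :=
  ⟨fun k h1 h2 => hG.1 k (h h1) (h h2), hG.2.1.mono h,
    fun i hi j hj => hG.2.2 i (h hi) j (h hj)⟩

theorem edge_add {u v : V} (w : V) : edge (u + w) (v + w) = ((edge u v).1 + w, (edge u v).2) := by
  unfold edge
  have h1 : v + w = u + w + (1, 0) ↔ v = u + (1, 0) := by
    rw [add_right_comm, add_left_inj]
  have h2 : u + w = v + w + (1, 0) ↔ u = v + (1, 0) := by
    rw [add_right_comm, add_left_inj]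
  have h3 : v + w = u + w + (0, 1) ↔ v = u + (0, 1) := by
    rw [add_right_comm, add_left_inj]
  simp only [h1, h2, h3]
  split_ifs <;> rfl

theorem wt_shift (ω : Env) (w u v : V) : wt (shift w ω) u v = wt ω (u + w) (v + w) := by
  unfold wt shift
  rw [edge_add]

theorem adj_add {u v : V} (w : V) : Adj (u + w) (v + w) ↔ Adj u v := by
  unfold Adj
  have h1 : v + w = u + w + (1, 0) ↔ v = u + (1, 0) := by
    rw [add_right_comm, add_left_inj]
  have h2 : u + w = v + w + (1, 0) ↔ u = v + (1, 0) := by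
    rw [add_right_comm, add_left_inj]
  have h3 : v + w = u + w + (0, 1) ↔ v = u + (0, 1) := by
    rw [add_right_comm, add_left_inj]
  have h4 : u + w = v + w + (0, 1) ↔ u = v + (0, 1) := by
    rw [add_right_comm, add_left_inj]
  rw [h1, h2, h3, h4]

theorem sum_Ico_shift (f : ℤ → ℝ≥0) (i j c : ℤ) :
    ∑ k ∈ Ico i j, f (k + c) = ∑ k ∈ Ico (i + c) (j + c), f k := by
  rw [← Finset.map_add_right_Ico, sum_map]
  rfl

/-- the environment seen from a vertex of a geodesic -/
theorem geo_shift {ω : Env} {γ : ℤ → V} {S : Set ℤ} (hG : Geo ω γ S) (c : ℤ) :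
    Geo (shift (γ c) ω) (fun k => γ (k + c) - γ c) {k | k + c ∈ S} := by
  refine ⟨?_, ?_, ?_⟩
  · intro k h1 h2
    have h3 : k + 1 + c = k + c + 1 := by ring
    rw [← adj_add (γ c)]
    simp only [sub_add_cancel]
    rw [h3]
    refine hG.1 _ h1 ?_
    have h4 : k + 1 + c ∈ S := h2
    rwa [h3] at h4
  · intro i hi j hj hij
    have h1 : γ (i + c) = γ (j + c) := sub_left_injective hij
    have := hG.2.1 hi hj h1
    omega
  · intro i hi j hj hij n p hp hp0 hpn
    have h1 := hG.2.2 (i + c) hi (j + c) hj (by omega) n (fun l => p l + γ c)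
      (fun l hl => (adj_add _).2 (hp l hl)) (by simp [hp0]) (by simp [hpn])
    have h2 : ∑ k ∈ Ico i j, wt (shift (γ c) ω) (γ (k + c) - γ c) (γ (k + 1 + c) - γ c) =
        ∑ k ∈ Ico (i + c) (j + c), wt ω (γ k) (γ (k + 1)) := by
      rw [← sum_Ico_shift (fun k => wt ω (γ k) (γ (k + 1)))]
      refine sum_congr rfl fun k _ => ?_
      rw [wt_shift, sub_add_cancel, sub_add_cancel]
      have h3 : k + 1 + c = k + c + 1 := by ring
      rw [h3]
    have h3 : len ω (fun l => p l + γ c) n = len (shift (γ c) ω) p n := by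
      unfold len
      refine sum_congr rfl fun k _ => ?_
      rw [wt_shift]
    rw [h2, ← h3]
    exact h1

/-! ### Compactness -/

/-- the box of radius `|k|` -/
noncomputable def Box (k : ℤ) : Finset V := Finset.Icc (-|k|, -|k|) (|k|, |k|)

theorem mem_Box {k : ℤ} {v : V} : v ∈ Box k ↔ |v.1| ≤ |k| ∧ |v.2| ≤ |k| := by
  unfold Box
  rw [Finset.mem_Icc, Prod.le_def, Prod.le_def, abs_le, abs_le]
  simp only
  tauto

/-- sequences of vertices in boxes -/
abbrev X := (k : ℤ) → Box k

/-- pairs of a sequence and an environment in which it is a geodesic -/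
def KX (S : Set ℤ) : Set (X × Env) := {z | Geo z.2 (fun k => (z.1 k : V)) S}

theorem continuous_wt (k : ℤ) :
    Continuous fun z : X × Env => wt z.2 (z.1 k : V) (z.1 (k + 1) : V) := by
  have h1 : Continuous fun w : E × Env => w.2 w.1 :=
    continuous_prod_of_discrete_left.2 fun e => continuous_apply e
  have h2 : Continuous fun u : Box k × Box (k + 1) => edge (u.1 : V) (u.2 : V) :=
    continuous_of_discreteTopology
  have h3 : Continuous fun z : X × Env => (z.1 k, z.1 (k + 1)) := by fun_prop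
  exact h1.comp ((h2.comp h3).prodMk continuous_snd)

theorem continuous_len (p : ℕ → V) (n : ℕ) : Continuous fun ω : Env => len ω p n := by
  unfold len wt
  fun_prop

theorem isClosed_KX (S : Set ℤ) : IsClosed (KX S) := by
  unfold KX Geo
  simp only [Set.InjOn, Set.ofPred_and, Set.ofPred_forall]
  refine IsClosed.inter ?_ (IsClosed.inter ?_ ?_)
  · refine isClosed_iInter fun k => isClosed_iInter fun _ => isClosed_iInter fun _ => ?_
    have h3 : Continuous fun z : X × Env => (z.1 k, z.1 (k + 1)) := by fun_prop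
    exact (isClosed_discrete {u : Box k × Box (k + 1) | Adj (u.1 : V) (u.2 : V)}).preimage h3
  · refine isClosed_iInter fun i => isClosed_iInter fun _ => isClosed_iInter fun j =>
      isClosed_iInter fun _ => ?_
    have h3 : Continuous fun z : X × Env => (z.1 i, z.1 j) := by fun_prop
    exact (isClosed_discrete {u : Box i × Box j | (u.1 : V) = (u.2 : V) → i = j}).preimage h3
  · refine isClosed_iInter fun i => isClosed_iInter fun _ => isClosed_iInter fun j =>
      isClosed_iInter fun _ => isClosed_iInter fun hij => isClosed_iInter fun n =>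
      isClosed_iInter fun p => isClosed_iInter fun _ => ?_
    have h3 : Continuous fun z : X × Env => (z.1 i, z.1 j) := by fun_prop
    have h4 : IsClosed {z : X × Env | ¬ (p 0 = (z.1 i : V) ∧ p n = (z.1 j : V))} :=
      (isClosed_discrete {u : Box i × Box j | ¬ (p 0 = (u.1 : V) ∧ p n = (u.2 : V))}).preimage h3
    have h5 : IsClosed {z : X × Env |
        ∑ k ∈ Ico i j, wt z.2 (z.1 k : V) (z.1 (k + 1) : V) ≤ len z.2 p n} :=
      isClosed_le (continuous_finsetSum _ fun k _ => continuous_wt k)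
        ((continuous_len p n).comp continuous_snd)
    convert h4.union h5 using 1
    ext z
    simp only [Set.mem_union, Set.mem_ofPred_eq]
    tauto

/-- the environments with a geodesic of length `2 M` whose midpoint is the origin -/
def K (M : ℕ) : Set Env := {ω | ∃ x : X, (x, ω) ∈ KX (Set.Icc (-(M : ℤ)) M)}

theorem isClosed_K (M : ℕ) : IsClosed (K M) := by
  have : K M = Prod.snd '' KX (Set.Icc (-(M : ℤ)) M) := by
    ext ω
    simp [K]
  rw [this]
  exact isClosedMap_snd_of_compactSpace _ (isClosed_KX _)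

theorem iInter_K_subset : ⋂ M, K M ⊆ Bi := by
  intro ω hω
  rw [Set.mem_iInter] at hω
  have h1 : (⋂ M : ℕ, {x : X | (x, ω) ∈ KX (Set.Icc (-(M : ℤ)) M)}).Nonempty := by
    have hcl : ∀ M : ℕ, IsClosed {x : X | (x, ω) ∈ KX (Set.Icc (-(M : ℤ)) M)} := fun M =>
      (isClosed_KX _).preimage (by fun_prop : Continuous fun x : X => (x, ω))
    refine IsCompact.nonempty_iInter_of_sequence_nonempty_isCompact_isClosed _ ?_ hω
      (hcl 0).isCompact hcl
    intro M x hx
    exact Geo.mono (Set.Icc_subset_Icc (by push_cast; omega) (by push_cast; omega)) hx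
  obtain ⟨x, hx⟩ := h1
  rw [Set.mem_iInter] at hx
  refine ⟨fun k => (x k : V), ?_, ?_⟩
  · have := mem_Box.1 (x 0).2
    simp only [abs_zero, abs_nonpos_iff] at this
    exact Prod.ext this.1 this.2
  · rw [geo_iff Set.ordConnected_univ]
    have key : ∀ i j : ℤ, ∃ M : ℕ, i ∈ Set.Icc (-(M : ℤ)) M ∧ j ∈ Set.Icc (-(M : ℤ)) M := by
      intro i j
      refine ⟨i.natAbs + j.natAbs, ⟨?_, ?_⟩, ⟨?_, ?_⟩⟩ <;> omega
    refine ⟨fun k _ _ => ?_, fun i _ j _ hij => ?_, fun i _ j _ => ?_⟩
    · obtain ⟨M, h1, h2⟩ := key k (k + 1)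
      exact (hx M).1 k h1 h2
    · obtain ⟨M, h1, h2⟩ := key i j
      exact (hx M).2.1 h1 h2 hij
    · obtain ⟨M, h1, h2⟩ := key i j
      exact (hx M).2.2 i h1 j h2

theorem adj_abs {u v : V} (h : Adj u v) {c : ℤ} (h1 : |u.1| ≤ c) (h2 : |u.2| ≤ c) :
    |v.1| ≤ c + 1 ∧ |v.2| ≤ c + 1 := by
  rw [abs_le] at h1 h2
  rw [abs_le, abs_le]
  unfold Adj at h
  simp only [Prod.ext_iff, Prod.fst_add, Prod.snd_add] at h
  omega

theorem Adj.symm {u v : V} (h : Adj u v) : Adj v u := by
  unfold Adj at *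
  tauto

theorem geo_bound {ω : Env} {γ : ℤ → V} {M : ℕ} (h0 : γ 0 = 0)
    (hG : Geo ω γ (Set.Icc (-(M : ℤ)) M)) (n : ℕ) (hn : n ≤ M) :
    (|(γ n).1| ≤ n ∧ |(γ n).2| ≤ n) ∧ (|(γ (-n)).1| ≤ n ∧ |(γ (-n)).2| ≤ n) := by
  induction n with
  | zero => simp [h0]
  | succ n ih =>
    obtain ⟨⟨h1, h2⟩, ⟨h3, h4⟩⟩ := ih (by omega)
    constructor
    · have h := hG.1 n ⟨by omega, by omega⟩ ⟨by omega, by omega⟩
      have := adj_abs h h1 h2
      push_cast
      exact this
    · have h := hG.1 (-(n : ℤ) - 1) ⟨by omega, by omega⟩ ⟨by omega, by omega⟩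
      rw [sub_add_cancel] at h
      have h5 := adj_abs h.symm h3 h4
      have h6 : -((n + 1 : ℕ) : ℤ) = -(n : ℤ) - 1 := by push_cast; ring
      rw [h6]
      push_cast
      exact h5

theorem geo_congr {ω : Env} {γ γ' : ℤ → V} {S : Set ℤ} (hS : S.OrdConnected)
    (h : ∀ k ∈ S, γ k = γ' k) (hG : Geo ω γ S) : Geo ω γ' S := by
  refine ⟨fun k h1 h2 => ?_, fun i hi j hj hij => ?_, fun i hi j hj hij n p hp hp0 hpn => ?_⟩
  · rw [← h k h1, ← h _ h2]
    exact hG.1 k h1 h2
  · rw [← h i hi, ← h j hj] at hij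
    exact hG.2.1 hi hj hij
  · have h1 := hG.2.2 i hi j hj hij n p hp (by rw [hp0, h i hi]) (by rw [hpn, h j hj])
    refine le_trans (le_of_eq (sum_congr rfl fun k hk => ?_)) h1
    rw [mem_Ico] at hk
    rw [h k (hS.out hi hj ⟨by omega, by omega⟩), h (k + 1) (hS.out hi hj ⟨by omega, by omega⟩)]

theorem mem_K_of_geo {ω : Env} {γ : ℤ → V} {M : ℕ} (h0 : γ 0 = 0)
    (hG : Geo ω γ (Set.Icc (-(M : ℤ)) M)) : ω ∈ K M := by
  classical
  have hb : ∀ k : ℤ, |k| ≤ M → γ k ∈ Box k := by
    intro k hk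
    rw [mem_Box]
    rcases le_total 0 k with h | h
    · obtain ⟨n, rfl⟩ := Int.eq_ofNat_of_zero_le h
      rw [Nat.abs_cast] at hk ⊢
      exact (geo_bound h0 hG n (by exact_mod_cast hk)).1
    · obtain ⟨n, hn⟩ := Int.eq_ofNat_of_zero_le (neg_nonneg.2 h)
      have hk' : k = -(n : ℤ) := by omega
      subst hk'
      rw [abs_neg, Nat.abs_cast] at hk ⊢
      exact (geo_bound h0 hG n (by exact_mod_cast hk)).2
  have hz : ∀ k : ℤ, (0 : V) ∈ Box k := by
    intro k
    rw [mem_Box]
    simp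
  refine ⟨fun k => if hk : |k| ≤ M then ⟨γ k, hb k hk⟩ else ⟨0, hz k⟩, ?_⟩
  refine geo_congr Set.ordConnected_Icc (fun k hk => ?_) hG
  have hk' : |k| ≤ M := abs_le.2 hk
  simp only [hk', dif_pos]

theorem shift_mem_K {ω : Env} {γ : ℤ → V} (hG : Geo ω γ (Set.Ici 0)) {M k : ℕ} (hk : M ≤ k) :
    shift (γ k) ω ∈ K M := by
  have h1 := geo_shift hG k
  refine mem_K_of_geo (γ := fun i => γ (i + k) - γ k) (by simp) (h1.mono ?_)
  intro i hi
  have : -(M : ℤ) ≤ i := hi.1
  change (0 : ℤ) ≤ i + k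
  omega

/-! ### The weak limit -/

theorem limit_closed {ω : Env} {γ : ℤ → V} {ν : Measure Env} [IsProbabilityMeasure ν]
    (hν : IsWeakLimit ω γ ν) {F : Set Env} (hF : IsClosed F) {k0 : ℕ}
    (h : ∀ k : ℕ, k0 ≤ k → shift (γ (k : ℤ)) ω ∈ F) : ν F = 1 := by
  obtain ⟨φ, hφ, hφ2⟩ := hν
  have key : ∀ m : ℕ, (1 : ℝ≥0∞) ≤ ∫⁻ x, (hF.apprSeq m x : ℝ≥0∞) ∂ν := by
    intro m
    set f : Env →ᵇ ℝ := ⟨⟨fun x => (hF.apprSeq m x : ℝ),
      NNReal.continuous_coe.comp (hF.apprSeq m).continuous⟩, ⟨1, fun x y => by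
        rw [Real.dist_eq, abs_le]
        have h1 := HasOuterApproxClosed.apprSeq_apply_le_one hF m x
        have h2 := HasOuterApproxClosed.apprSeq_apply_le_one hF m y
        have h3 : ((hF.apprSeq m x : ℝ≥0) : ℝ) ≤ 1 := by exact_mod_cast h1
        have h4 : ((hF.apprSeq m y : ℝ≥0) : ℝ) ≤ 1 := by exact_mod_cast h2
        have h5 := (hF.apprSeq m x).coe_nonneg
        have h6 := (hF.apprSeq m y).coe_nonneg
        constructor <;> simp only <;> linarith⟩⟩ with hf
    have hf1 : ∀ x ∈ F, f x = 1 := by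
      intro x hx
      change ((hF.apprSeq m x : ℝ≥0) : ℝ) = 1
      rw [HasOuterApproxClosed.apprSeq_apply_eq_one hF m hx]
      rfl
    have hf0 : ∀ x, 0 ≤ f x := fun x => (hF.apprSeq m x).coe_nonneg
    have h1 := hφ2 f
    have h2 : Tendsto (fun n : ℕ => 1 - (k0 : ℝ) / (φ n : ℕ)) atTop (𝓝 (1 - 0)) :=
      tendsto_const_nhds.sub
        ((tendsto_const_div_atTop_nhds_zero_nat (k0 : ℝ)).comp hφ.tendsto_atTop)
    rw [sub_zero] at h2
    have h3 : (1 : ℝ) ≤ ∫ x, f x ∂ν := by
      refine le_of_tendsto_of_tendsto h2 h1 ?_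
      filter_upwards [hφ.tendsto_atTop.eventually (eventually_ge_atTop (k0 + 1))] with n' hn
      generalize φ n' = n at hn ⊢
      have hn0 : (0 : ℝ) < n := by exact_mod_cast (by omega : 0 < n)
      rw [le_div_iff₀ hn0, sub_mul, div_mul_cancel₀ _ hn0.ne', one_mul]
      calc (n : ℝ) - k0 = ((n - k0 : ℕ) : ℝ) := by rw [Nat.cast_sub (by omega)]
        _ = ∑ k ∈ Finset.Ico k0 n, (1 : ℝ) := by simp
        _ = ∑ k ∈ Finset.Ico k0 n, f (shift (γ (k : ℤ)) ω) := by
            refine sum_congr rfl fun k hk => ?_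
            rw [hf1 _ (h k (Finset.mem_Ico.1 hk).1)]
        _ ≤ _ := by
            refine sum_le_sum_of_subset_of_nonneg ?_ fun k _ _ => hf0 _
            intro k hk
            rw [Finset.mem_Ico] at hk
            exact Finset.mem_range.2 hk.2
    have h4 : ∫⁻ x, (hF.apprSeq m x : ℝ≥0∞) ∂ν = ENNReal.ofReal (∫ x, f x ∂ν) := by
      rw [ofReal_integral_eq_lintegral_ofReal (f.integrable ν) (Eventually.of_forall hf0)]
      refine lintegral_congr fun x => ?_
      change _ = ENNReal.ofReal ((hF.apprSeq m x : ℝ≥0) : ℝ)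
      rw [ENNReal.ofReal_coe_nnreal]
    rw [h4]
    exact ENNReal.one_le_ofReal.2 h3
  refine le_antisymm prob_le_one ?_
  exact ge_of_tendsto' (HasOuterApproxClosed.tendsto_lintegral_apprSeq hF ν) key

theorem limit_Bi {ω : Env} {γ : ℤ → V} {ν : Measure Env} [IsProbabilityMeasure ν]
    (hG : IsGeodesicOn ω γ (Set.Ici 0)) (hν : IsWeakLimit ω γ ν) : ∀ᵐ ω' ∂ν, ω' ∈ Bi := by
  rw [geo_iff Set.ordConnected_Ici] at hG
  have h1 : ∀ M : ℕ, ∀ᵐ ω' ∂ν, ω' ∈ K M := by
    intro M
    have h2 := limit_closed hν (isClosed_K M) (k0 := M) fun k hk => shift_mem_K hG hk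
    rw [← prob_compl_eq_zero_iff (isClosed_K M).measurableSet] at h2
    exact h2
  filter_upwards [ae_all_iff.2 h1] with ω' h2
  exact iInter_K_subset (Set.mem_iInter.2 h2)

/-! ### A local pattern which no long geodesic crosses -/

/-- unit vectors -/
def U4 (e : V) : Prop := e = (1, 0) ∨ e = (-1, 0) ∨ e = (0, 1) ∨ e = (0, -1)

/-- orthogonal unit vectors -/
def Perp (e f : V) : Prop := (e.2 = 0 ∧ f.1 = 0) ∨ (e.1 = 0 ∧ f.2 = 0)

theorem adj_iff {u v : V} : Adj u v ↔ ∃ e, U4 e ∧ v = u + e := by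
  unfold Adj U4
  constructor
  · rintro (h | h | h | h)
    · exact ⟨_, Or.inl rfl, h⟩
    · exact ⟨_, Or.inr (Or.inl rfl), by rw [h]; ext <;> simp⟩
    · exact ⟨_, Or.inr (Or.inr (Or.inl rfl)), h⟩
    · exact ⟨_, Or.inr (Or.inr (Or.inr rfl)), by rw [h]; ext <;> simp⟩
  · rintro ⟨e, (h | h | h | h), rfl⟩
    · exact Or.inl (by rw [h])
    · exact Or.inr (Or.inl (by rw [h]; ext <;> simp))
    · exact Or.inr (Or.inr (Or.inl (by rw [h])))
    · exact Or.inr (Or.inr (Or.inr (by rw [h]; ext <;> simp)))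

/-- both endpoints on the same coordinate axis -/
def OnAxis (u v : V) : Prop := (u.1 = 0 ∧ v.1 = 0) ∨ (u.2 = 0 ∧ v.2 = 0)

/-- the edge lies on a coordinate axis -/
def EdgeOn (e : E) : Prop := (e.2 = false ∧ e.1.2 = 0) ∨ (e.2 = true ∧ e.1.1 = 0)

instance (e : E) : Decidable (EdgeOn e) := by unfold EdgeOn; infer_instance

/-- the allowed weights in the pattern -/
def PatSet (a' a b : ℝ≥0) (e : E) : Set ℝ≥0 := if EdgeOn e then Set.Ici b else Set.Icc a' a

/-- the pattern: large weights on the axes, small weights off the axes -/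
def Pat (L : ℕ) (a' a b : ℝ≥0) : Set Env :=
  Set.pi ((Box (L + 1) ×ˢ (Finset.univ : Finset Bool) : Finset E) : Set E) (PatSet a' a b)

theorem edge_spec {u v : V} (h : Adj u v) :
    ((edge u v).1 = u ∨ (edge u v).1 = v) ∧ (EdgeOn (edge u v) ↔ OnAxis u v) := by
  unfold Adj at h
  unfold EdgeOn OnAxis edge
  simp only [Prod.ext_iff, Prod.fst_add, Prod.snd_add] at h ⊢
  split_ifs <;> simp <;> omega

theorem wt_axis {L : ℕ} {a' a b : ℝ≥0} {ω : Env} (hP : ω ∈ Pat L a' a b) {u v : V} (h : Adj u v)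
    (hu : u ∈ Box (L + 1)) (hv : v ∈ Box (L + 1)) (hon : OnAxis u v) : b ≤ wt ω u v := by
  obtain ⟨h1, h2⟩ := edge_spec h
  have h3 : edge u v ∈ ((Box (L + 1) ×ˢ (Finset.univ : Finset Bool) : Finset E) : Set E) := by
    rw [Finset.mem_coe, Finset.mem_product]
    refine ⟨?_, Finset.mem_univ _⟩
    rcases h1 with h1 | h1 <;> rw [h1] <;> assumption
  have h4 := hP _ h3
  unfold PatSet at h4
  rw [if_pos (h2.2 hon)] at h4
  exact h4

theorem wt_cheap {L : ℕ} {a' a b : ℝ≥0} {ω : Env} (hP : ω ∈ Pat L a' a b) {u v : V} (h : Adj u v)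
    (hu : u ∈ Box (L + 1)) (hv : v ∈ Box (L + 1)) (hon : ¬ OnAxis u v) :
    a' ≤ wt ω u v ∧ wt ω u v ≤ a := by
  obtain ⟨h1, h2⟩ := edge_spec h
  have h3 : edge u v ∈ ((Box (L + 1) ×ˢ (Finset.univ : Finset Bool) : Finset E) : Set E) := by
    rw [Finset.mem_coe, Finset.mem_product]
    refine ⟨?_, Finset.mem_univ _⟩
    rcases h1 with h1 | h1 <;> rw [h1] <;> assumption
  have h4 := hP _ h3
  unfold PatSet at h4
  rw [if_neg (fun h5 => hon (h2.1 h5))] at h4
  exact h4

theorem mem_BoxL {L : ℕ} {v : V} : v ∈ Box (L + 1) ↔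
    (-((L : ℤ) + 1) ≤ v.1 ∧ v.1 ≤ L + 1) ∧ (-((L : ℤ) + 1) ≤ v.2 ∧ v.2 ≤ L + 1) := by
  rw [mem_Box, abs_of_nonneg (by positivity : (0 : ℤ) ≤ L + 1), abs_le, abs_le]

theorem pat_axis {L : ℕ} {a' a b : ℝ≥0} {ω : Env} (hP : ω ∈ Pat L a' a b) {e : V} (he : U4 e)
    {k : ℤ} (hk : -(L : ℤ) - 1 ≤ k) (hk2 : k < L + 1) : b ≤ wt ω (k • e) ((k + 1) • e) := by
  refine wt_axis hP (adj_iff.2 ⟨e, he, by rw [add_smul, one_smul]⟩) (mem_BoxL.2 ?_)
    (mem_BoxL.2 ?_) ?_
  all_goals
    unfold U4 at he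
    try unfold OnAxis
    rcases he with rfl | rfl | rfl | rfl <;> simp <;> omega

theorem pat_par {L : ℕ} {a' a b : ℝ≥0} {ω : Env} (hP : ω ∈ Pat L a' a b) {e f : V} (he : U4 e)
    (hf : U4 f) (hef : Perp e f) {k : ℤ} (hk : -(L : ℤ) - 1 ≤ k) (hk2 : k < L + 1) :
    wt ω (k • e + f) ((k + 1) • e + f) ≤ a := by
  refine (wt_cheap hP (adj_iff.2 ⟨e, he, by rw [add_smul, one_smul]; abel⟩) (mem_BoxL.2 ?_)
    (mem_BoxL.2 ?_) ?_).2
  all_goals
    unfold U4 at he hf
    unfold Perp at hef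
    try unfold OnAxis
    rcases he with rfl | rfl | rfl | rfl <;> rcases hf with rfl | rfl | rfl | rfl <;>
      simp at hef ⊢ <;> omega

theorem pat_perp {L : ℕ} {a' a b : ℝ≥0} {ω : Env} (hP : ω ∈ Pat L a' a b) {e f : V} (he : U4 e)
    (hf : U4 f) (hef : Perp e f) {k : ℤ} (hk : -(L : ℤ) - 1 ≤ k) (hk2 : k ≤ L + 1) (hk0 : k ≠ 0) :
    a' ≤ wt ω (k • e) (k • e + f) ∧ wt ω (k • e) (k • e + f) ≤ a := by
  refine wt_cheap hP (adj_iff.2 ⟨f, hf, rfl⟩) (mem_BoxL.2 ?_) (mem_BoxL.2 ?_) ?_
  all_goals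
    unfold U4 at he hf
    unfold Perp at hef
    try unfold OnAxis
    rcases he with rfl | rfl | rfl | rfl <;> rcases hf with rfl | rfl | rfl | rfl <;>
      simp at hef ⊢ <;> omega

theorem pat_perp' {L : ℕ} {a' a b : ℝ≥0} {ω : Env} (hP : ω ∈ Pat L a' a b) {e f : V} (he : U4 e)
    (hf : U4 f) (hef : Perp e f) {k : ℤ} (hk : -(L : ℤ) - 1 ≤ k) (hk2 : k ≤ L + 1) (hk0 : k ≠ 0) :
    a' ≤ wt ω (k • e + f) (k • e) ∧ wt ω (k • e + f) (k • e) ≤ a := by
  refine wt_cheap hP (Adj.symm (adj_iff.2 ⟨f, hf, rfl⟩)) (mem_BoxL.2 ?_) (mem_BoxL.2 ?_) ?_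
  all_goals
    unfold U4 at he hf
    unfold Perp at hef
    try unfold OnAxis
    rcases he with rfl | rfl | rfl | rfl <;> rcases hf with rfl | rfl | rfl | rfl <;>
      simp at hef ⊢ <;> omega

/-- there is a path from `x` to `y` of passage time at most `c` -/
def Reach (ω : Env) (x y : V) (c : ℝ≥0) : Prop :=
  ∃ (n : ℕ) (p : ℕ → V), IsPath p n ∧ p 0 = x ∧ p n = y ∧ len ω p n ≤ c

theorem Reach.refl (ω : Env) (x : V) : Reach ω x x 0 :=
  ⟨0, fun _ => x, fun i hi => absurd hi (by omega), rfl, rfl, by simp [len]⟩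

theorem Reach.step {ω : Env} {x y z : V} {c d : ℝ≥0} (h : Reach ω x y c) (hyz : Adj y z)
    (hd : wt ω y z ≤ d) : Reach ω x z (c + d) := by
  obtain ⟨n, p, h1, h2, h3, h4⟩ := h
  refine ⟨n + 1, fun i => if i ≤ n then p i else z, ?_, by simp [h2], by simp, ?_⟩
  · intro i hi
    rcases Nat.lt_or_ge i n with h5 | h5
    · simp only [show i ≤ n by omega, show i + 1 ≤ n by omega, if_true]
      exact h1 i h5
    · have h6 : i = n := by omega
      subst h6
      simp only [le_refl, if_true, show ¬ (i + 1 ≤ i) by omega, if_false]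
      rw [h3]
      exact hyz
  · unfold len
    rw [sum_range_succ]
    simp only [le_refl, if_true, show ¬ (n + 1 ≤ n) by omega, if_false]
    rw [h3]
    refine add_le_add (le_trans (le_of_eq (sum_congr rfl fun i hi => ?_)) h4) hd
    rw [mem_range] at hi
    simp only [show i ≤ n by omega, show i + 1 ≤ n by omega, if_true]

theorem Geo.reach {ω : Env} {γ : ℤ → V} {S : Set ℤ} (hG : Geo ω γ S) {i j : ℤ} (hi : i ∈ S)
    (hj : j ∈ S) (hij : i ≤ j) {c : ℝ≥0} (h : Reach ω (γ i) (γ j) c) :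
    ∑ k ∈ Ico i j, wt ω (γ k) (γ (k + 1)) ≤ c := by
  obtain ⟨n, p, h1, h2, h3, h4⟩ := h
  exact (hG.2.2 i hi j hj hij n p h1 h2 h3).trans h4

/-- the line parallel to an axis -/
theorem reach_par {L : ℕ} {a' a b : ℝ≥0} {ω : Env} (hP : ω ∈ Pat L a' a b) {e f x : V} (he : U4 e)
    (hf : U4 f) (hef : Perp e f) {s : ℤ} {c : ℝ≥0} (hs : -(L : ℤ) - 1 ≤ s)
    (h : Reach ω x (s • e + f) c) (n : ℕ) (hn : s + n ≤ L + 1) :
    Reach ω x ((s + n) • e + f) (c + n * a) := by
  induction n with
  | zero => simpa using h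
  | succ n ih =>
    have h1 := (ih (by push_cast at hn; omega)).step (z := (s + n + 1) • e + f)
      (adj_iff.2 ⟨e, he, by rw [add_smul, one_smul]; abel⟩)
      (pat_par hP he hf hef (k := s + n) (by omega) (by push_cast at hn; omega))
    convert h1 using 1
    · push_cast
      ring_nf
    · push_cast
      ring

/-- a path leaving the origin in direction `e` runs straight up to distance `L` or turns -/
theorem exit {L : ℕ} (hL : 1 ≤ L) {γ : ℕ → V} {e : V} (he : U4 e) (h0 : γ 0 = 0) (h1 : γ 1 = e)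
    (hadj : ∀ k ≤ L, Adj (γ k) (γ (k + 1))) (hinj : ∀ i j, i ≤ L + 1 → j ≤ L + 1 → γ i = γ j → i = j) :
    ∃ j : ℕ, 1 ≤ j ∧ j ≤ L ∧ (∀ k : ℕ, k ≤ j → γ k = (k : ℤ) • e) ∧
      (j = L ∨ (j < L ∧ ∃ f, U4 f ∧ Perp e f ∧ γ (j + 1) = (j : ℤ) • e + f)) := by
  have key : ∀ m : ℕ, 1 ≤ m → m ≤ L → (∀ k : ℕ, k ≤ m → γ k = (k : ℤ) • e) ∨
      ∃ j : ℕ, 1 ≤ j ∧ j < L ∧ (∀ k : ℕ, k ≤ j → γ k = (k : ℤ) • e) ∧
        ∃ f, U4 f ∧ Perp e f ∧ γ (j + 1) = (j : ℤ) • e + f := by
    intro m hm1 hm
    induction m with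
    | zero => omega
    | succ m ih =>
      rcases Nat.eq_zero_or_pos m with hm0 | hm0
      · subst hm0
        left
        intro k hk
        have : k = 0 ∨ k = 1 := by omega
        rcases this with rfl | rfl
        · simp [h0]
        · simp [h1]
      · rcases ih hm0 (by omega) with h | h
        · obtain ⟨f, hf, hf2⟩ := adj_iff.1 (hadj m (by omega))
          rw [h m le_rfl] at hf2
          have h3 : f ≠ -e := by
            intro h4
            have h5 : γ (m + 1) = γ (m - 1) := by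
              rw [hf2, h4, h (m - 1) (by omega)]
              rw [Nat.cast_sub hm0, Nat.cast_one, sub_smul, one_smul]
              abel
            have := hinj _ _ (by omega) (by omega) h5
            omega
          by_cases h6 : f = e
          · left
            intro k hk
            rcases Nat.lt_or_ge k (m + 1) with h7 | h7
            · exact h k (by omega)
            · have h8 : k = m + 1 := by omega
              rw [h8, hf2, h6]
              push_cast
              rw [add_smul, one_smul]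
          · right
            refine ⟨m, hm0, by omega, h, f, hf, ?_, hf2⟩
            unfold U4 at he hf
            unfold Perp
            rcases he with rfl | rfl | rfl | rfl <;> rcases hf with rfl | rfl | rfl | rfl <;>
              simp at h3 h6 ⊢
        · exact Or.inr h
  rcases key L hL le_rfl with h | ⟨j, h2, h3, h4, h5⟩
  · exact ⟨L, hL, le_rfl, h, Or.inl rfl⟩
  · exact ⟨j, h2, h3.le, h4, Or.inr ⟨h3, h5⟩⟩

theorem sum_lower {g : ℤ → ℝ≥0} {b : ℝ≥0} {s t : ℤ} (n : ℕ) (hn : s + n = t)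
    (h : ∀ k, s ≤ k → k < t → b ≤ g k) : (n : ℝ≥0) * b ≤ ∑ k ∈ Ico s t, g k := by
  have h1 := Finset.card_nsmul_le_sum (Ico s t) g b (fun k hk => by
    rw [mem_Ico] at hk
    exact h k hk.1 hk.2)
  rw [Int.card_Ico, nsmul_eq_mul] at h1
  have h2 : (t - s).toNat = n := by omega
  rwa [h2] at h1

theorem U4.neg {e : V} (he : U4 e) : U4 (-e) := by
  unfold U4 at *
  rcases he with rfl | rfl | rfl | rfl <;> simp

theorem exists_perp {e : V} (he : U4 e) : ∃ f, U4 f ∧ Perp e f := by
  unfold U4 at he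
  rcases he with rfl | rfl | rfl | rfl
  · exact ⟨(0, 1), by simp [U4], by simp [Perp]⟩
  · exact ⟨(0, 1), by simp [U4], by simp [Perp]⟩
  · exact ⟨(1, 0), by simp [U4], by simp [Perp]⟩
  · exact ⟨(1, 0), by simp [U4], by simp [Perp]⟩

theorem no_long {L M : ℕ} (hL : 1 ≤ L) (hM : L + 1 ≤ M) {a' a b : ℝ≥0} (hab : a < b)
    (h2 : 3 * a < a' + 2 * b) (h3 : ((L : ℝ≥0) + 3) * a < (L + 1) * b) {ω : Env}
    (hP : ω ∈ Pat L a' a b) {γ : ℤ → V} (h0 : γ 0 = 0)
    (hG : Geo ω γ (Set.Icc (-(M : ℤ)) M)) : False := by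
  have hadj : ∀ k : ℤ, -(M : ℤ) ≤ k → k < M → Adj (γ k) (γ (k + 1)) := fun k h4 h5 =>
    hG.1 k ⟨h4, by omega⟩ ⟨by omega, by omega⟩
  have hinj : ∀ i j : ℤ, -(M : ℤ) ≤ i → i ≤ M → -(M : ℤ) ≤ j → j ≤ M → γ i = γ j → i = j :=
    fun i j h4 h5 h6 h7 h8 => hG.2.1 ⟨h4, h5⟩ ⟨h6, h7⟩ h8
  -- the two steps at the origin
  obtain ⟨e, he, he1⟩ := adj_iff.1 (hadj 0 (by omega) (by omega))
  rw [h0, zero_add, zero_add] at he1
  obtain ⟨u, hu, hu1⟩ := adj_iff.1 (hadj (-1) (by omega) (by omega)).symm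
  have e0 : (-1 : ℤ) + 1 = 0 := by norm_num
  rw [e0, h0, zero_add] at hu1
  have hue : u ≠ e := by
    intro h
    have := hinj (-1) 1 (by omega) (by omega) (by omega) (by omega) (by rw [hu1, he1, h])
    omega
  by_cases hstr : u = -e
  swap
  · -- a turn at the origin
    have hperp : Perp u e := by
      unfold U4 at he hu
      unfold Perp
      rcases he with rfl | rfl | rfl | rfl <;> rcases hu with rfl | rfl | rfl | rfl <;>
        simp at hstr hue ⊢
    have hperp' : Perp e u := by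
      unfold Perp at hperp ⊢
      tauto
    have r1 := (Reach.refl ω u).step (z := u + e) (adj_iff.2 ⟨e, he, rfl⟩) (d := a) (by
      have := (pat_perp hP hu he hperp (k := 1) (by omega) (by omega) (by omega)).2
      rwa [one_smul] at this)
    have r2 := r1.step (z := e) (Adj.symm (adj_iff.2 ⟨u, hu, by rw [add_comm]⟩)) (d := a) (by
      have := (pat_perp' hP he hu hperp' (k := 1) (by omega) (by omega) (by omega)).2
      rw [one_smul, add_comm] at this
      exact this)
    rw [← hu1, ← he1] at r2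
    have r3 := hG.reach (i := -1) (j := 1) ⟨by omega, by omega⟩ ⟨by omega, by omega⟩ (by omega) r2
    have r4 := sum_lower (g := fun k => wt ω (γ k) (γ (k + 1))) (b := b) (s := -1) (t := 1) 2
      (by norm_num) (by
        intro k hk1 hk2
        have : k = -1 ∨ k = 0 := by omega
        rcases this with rfl | rfl
        · change b ≤ wt ω (γ (-1)) (γ (-1 + 1))
          rw [e0, h0, hu1]
          have := pat_axis hP hu.neg (k := -1) (by omega) (by omega)
          rw [e0, zero_smul, neg_smul, one_smul, neg_neg] at this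
          exact this
        · change b ≤ wt ω (γ 0) (γ (0 + 1))
          rw [zero_add, h0, he1]
          have := pat_axis hP he (k := 0) (by omega) (by omega)
          rw [zero_add, zero_smul, one_smul] at this
          exact this)
    have r5 := r4.trans r3
    have r6 : (2 : ℝ) * b ≤ 0 + a + a := by exact_mod_cast r5
    have r7 : (a : ℝ) < b := by exact_mod_cast hab
    linarith
  · -- straight through the origin
    have r7 : (a : ℝ) < b := by exact_mod_cast hab
    have r8 : ((L : ℝ) + 3) * a < (L + 1) * b := by exact_mod_cast h3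
    have r9 : 3 * (a : ℝ) < a' + 2 * b := by exact_mod_cast h2
    obtain ⟨j, hj1, hjL, hj, hjx⟩ := exit hL (γ := fun k => γ k) he (by simpa using h0)
      (by simpa using he1) (fun k hk => by
        have := hadj k (by omega) (by omega)
        simpa using this)
      (fun i j hi hj h => by
        have := hinj i j (by omega) (by omega) (by omega) (by omega) h
        omega)
    obtain ⟨i, hi1, hiL, hi, hix⟩ := exit hL (γ := fun k => γ (-(k : ℤ))) he.neg
      (by simpa using h0)
      (by simpa [← hstr] using hu1) (fun k hk => by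
        have := (hadj (-(k : ℤ) - 1) (by omega) (by omega)).symm
        rw [sub_add_cancel] at this
        have h5 : -((k + 1 : ℕ) : ℤ) = -(k : ℤ) - 1 := by push_cast; ring
        simp only [h5]
        exact this)
      (fun i j hi hj h => by
        have := hinj (-(i : ℤ)) (-(j : ℤ)) (by omega) (by omega) (by omega) (by omega) h
        omega)
    have hmid : ∀ k : ℤ, -(i : ℤ) ≤ k → k ≤ j → γ k = k • e := by
      intro k h4 h5
      rcases le_total 0 k with h6 | h6
      · obtain ⟨m, rfl⟩ := Int.eq_ofNat_of_zero_le h6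
        exact hj m (by omega)
      · obtain ⟨m, hm⟩ := Int.eq_ofNat_of_zero_le (neg_nonneg.2 h6)
        have hk' : k = -(m : ℤ) := by omega
        subst hk'
        have := hi m (by omega)
        rw [this, smul_neg, neg_smul]
    have haxis : ∀ k : ℤ, -(i : ℤ) ≤ k → k < j → b ≤ wt ω (γ k) (γ (k + 1)) := by
      intro k h4 h5
      rw [hmid k h4 (by omega), hmid (k + 1) (by omega) (by omega)]
      exact pat_axis hP he (by omega) (by omega)
    rcases hjx with hjx | ⟨hjx, f, hf, hef, hfx⟩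
    · -- straight up to distance `L` in the positive direction
      subst hjx
      obtain ⟨f, hf, hef⟩ := exists_perp he
      have s1 := (Reach.refl ω ((-1 : ℤ) • e)).step (z := (-1 : ℤ) • e + f)
        (adj_iff.2 ⟨f, hf, rfl⟩)
        (pat_perp hP he hf hef (k := -1) (by omega) (by omega) (by omega)).2
      have s2 := reach_par hP he hf hef (by omega) s1 (j + 1) (by push_cast; omega)
      have e3 : (-1 : ℤ) + ((j + 1 : ℕ) : ℤ) = j := by push_cast; ring
      rw [e3] at s2
      have s3 := s2.step (z := (j : ℤ) • e) (Adj.symm (adj_iff.2 ⟨f, hf, rfl⟩))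
        (pat_perp' hP he hf hef (k := j) (by omega) (by omega) (by omega)).2
      rw [← hmid (-1) (by omega) (by omega), ← hmid j (by omega) (by omega)] at s3
      have s4 := hG.reach (i := -1) (j := j) ⟨by omega, by omega⟩ ⟨by omega, by omega⟩ (by omega) s3
      have s5 := sum_lower (g := fun k => wt ω (γ k) (γ (k + 1))) (b := b) (s := -1) (t := j)
        (j + 1) (by push_cast; ring) (fun k h4 h5 => haxis k (by omega) h5)
      have s6 : ((j : ℝ) + 1) * b ≤ 0 + a + (j + 1) * a + a := by exact_mod_cast s5.trans s4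
      linarith
    · rcases hix with hix | ⟨hix, f', hf', hef', hfx'⟩
      · -- straight up to distance `L` in the negative direction
        subst hix
        obtain ⟨f, hf, hef⟩ := exists_perp he
        have s1 := (Reach.refl ω ((-(i : ℤ)) • e)).step (z := (-(i : ℤ)) • e + f)
          (adj_iff.2 ⟨f, hf, rfl⟩)
          (pat_perp hP he hf hef (k := -(i : ℤ)) (by omega) (by omega) (by omega)).2
        have s2 := reach_par hP he hf hef (by omega) s1 (i + 1) (by push_cast; omega)
        have e3 : (-(i : ℤ)) + ((i + 1 : ℕ) : ℤ) = 1 := by push_cast; ring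
        rw [e3] at s2
        have s3 := s2.step (z := (1 : ℤ) • e) (Adj.symm (adj_iff.2 ⟨f, hf, rfl⟩))
          (pat_perp' hP he hf hef (k := 1) (by omega) (by omega) (by omega)).2
        rw [← hmid (-(i : ℤ)) (by omega) (by omega), ← hmid 1 (by omega) (by omega)] at s3
        have s4 := hG.reach (i := -(i : ℤ)) (j := 1) ⟨by omega, by omega⟩ ⟨by omega, by omega⟩
          (by omega) s3
        have s5 := sum_lower (g := fun k => wt ω (γ k) (γ (k + 1))) (b := b) (s := -(i : ℤ)) (t := 1)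
          (i + 1) (by push_cast; ring) (fun k h4 h5 => haxis k (by omega) (by omega))
        have s6 : ((i : ℝ) + 1) * b ≤ 0 + a + (i + 1) * a + a := by exact_mod_cast s5.trans s4
        linarith
      · -- the path turns on both sides
        have hef'' : Perp e f' := by
          unfold Perp at hef' ⊢
          simpa using hef'
        have e1 : γ (-(i : ℤ) - 1) = (-(i : ℤ)) • e + f' := by
          have h5 : -((i + 1 : ℕ) : ℤ) = -(i : ℤ) - 1 := by push_cast; ring
          rw [h5] at hfx'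
          rw [hfx', smul_neg, neg_smul]
        have e2 : γ ((j : ℤ) + 1) = (j : ℤ) • e + f := by
          have := hfx
          push_cast at this
          exact this
        have hsum : ∑ k ∈ Ico (-(i : ℤ) - 1) (j + 1), wt ω (γ k) (γ (k + 1)) =
            wt ω (γ (-(i : ℤ) - 1)) (γ (-(i : ℤ))) +
              (wt ω (γ j) (γ (j + 1)) + ∑ k ∈ Ico (-(i : ℤ)) j, wt ω (γ k) (γ (k + 1))) := by
          have h5 : Ico (-(i : ℤ) - 1) ((j : ℤ) + 1) =
              insert (-(i : ℤ) - 1) (insert (j : ℤ) (Ico (-(i : ℤ)) j)) := by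
            ext x
            simp only [mem_Ico, Finset.mem_insert]
            omega
          rw [h5, sum_insert, sum_insert]
          · simp only [sub_add_cancel]
          · simp
          · simp only [Finset.mem_insert, mem_Ico]
            omega
        have s5 := sum_lower (g := fun k => wt ω (γ k) (γ (k + 1))) (b := b) (s := -(i : ℤ))
          (t := j) (i + j) (by push_cast; ring) (fun k h4 h5 => haxis k (by omega) (by omega))
        have e4 : (-(i : ℤ)) + ((i + j : ℕ) : ℤ) = j := by push_cast; ring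
        have hij : (2 : ℝ) ≤ (i : ℝ) + j := by
          have : 2 ≤ i + j := by omega
          exact_mod_cast this
        have s1 := reach_par hP he hf' hef'' (by omega) (Reach.refl ω ((-(i : ℤ)) • e + f')) (i + j)
          (by push_cast; omega)
        rw [e4] at s1
        have s5' : ((i : ℝ) + j) * b ≤
            ((∑ k ∈ Ico (-(i : ℤ)) j, wt ω (γ k) (γ (k + 1)) : ℝ≥0) : ℝ) := by exact_mod_cast s5
        by_cases hff : f' = f
        · subst hff
          rw [← e1, ← e2] at s1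
          have s4 := hG.reach (i := -(i : ℤ) - 1) (j := (j : ℤ) + 1) ⟨by omega, by omega⟩
            ⟨by omega, by omega⟩ (by omega) s1
          rw [hsum] at s4
          have s6 : ((wt ω (γ (-(i : ℤ) - 1)) (γ (-(i : ℤ))) : ℝ≥0) : ℝ) +
              ((wt ω (γ j) (γ (j + 1)) : ℝ≥0) +
                ((∑ k ∈ Ico (-(i : ℤ)) j, wt ω (γ k) (γ (k + 1)) : ℝ≥0) : ℝ)) ≤
              0 + ((i : ℝ) + j) * a := by exact_mod_cast s4
          have w1 := (wt ω (γ (-(i : ℤ) - 1)) (γ (-(i : ℤ)))).coe_nonneg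
          have w2 := (wt ω (γ j) (γ (j + 1))).coe_nonneg
          nlinarith
        · have hff' : f' = -f := by
            unfold U4 at he hf hf'
            unfold Perp at hef hef''
            rcases he with rfl | rfl | rfl | rfl <;> rcases hf with rfl | rfl | rfl | rfl <;>
              rcases hf' with rfl | rfl | rfl | rfl <;> simp at hef hef'' hff ⊢
          have s2 := s1.step (z := (j : ℤ) • e) (Adj.symm (adj_iff.2 ⟨f', hf', rfl⟩))
            (pat_perp' hP he hf' hef'' (k := j) (by omega) (by omega) (by omega)).2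
          have s3 := s2.step (z := (j : ℤ) • e + f) (adj_iff.2 ⟨f, hf, rfl⟩) le_rfl
          have s3' : Reach ω (γ (-(i : ℤ) - 1)) (γ ((j : ℤ) + 1)) (0 + ((i + j : ℕ) : ℝ≥0) * a + a +
              wt ω ((j : ℤ) • e) ((j : ℤ) • e + f)) := by
            rw [e1, e2]
            exact s3
          have s4 := hG.reach (i := -(i : ℤ) - 1) (j := (j : ℤ) + 1) ⟨by omega, by omega⟩
            ⟨by omega, by omega⟩ (by omega) s3'
          rw [hsum] at s4
          have w1 : a' ≤ wt ω (γ (-(i : ℤ) - 1)) (γ (-(i : ℤ))) := by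
            rw [e1, hmid (-(i : ℤ)) le_rfl (by omega)]
            exact (pat_perp' hP he hf' hef'' (k := -(i : ℤ)) (by omega) (by omega) (by omega)).1
          have w2 : wt ω (γ j) (γ (j + 1)) = wt ω ((j : ℤ) • e) ((j : ℤ) • e + f) := by
            rw [e2, hmid j (by omega) le_rfl]
          rw [w2] at s4
          set w := wt ω ((j : ℤ) • e) ((j : ℤ) • e + f)
          have s6 : ((wt ω (γ (-(i : ℤ) - 1)) (γ (-(i : ℤ))) : ℝ≥0) : ℝ) +
              ((w : ℝ≥0) +
                ((∑ k ∈ Ico (-(i : ℤ)) j, wt ω (γ k) (γ (k + 1)) : ℝ≥0) : ℝ)) ≤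
              0 + ((i : ℝ) + j) * a + a + w := by exact_mod_cast s4
          have w3 : (a' : ℝ) ≤ ((wt ω (γ (-(i : ℤ) - 1)) (γ (-(i : ℤ))) : ℝ≥0) : ℝ) := by
            exact_mod_cast w1
          nlinarith

/-! ### The product measure -/

theorem exists_params (μ : Measure ℝ≥0) [IsProbabilityMeasure μ] (hμ : ∀ x, μ {x} ≠ 1) :
    ∃ (L : ℕ) (a' a b : ℝ≥0), 1 ≤ L ∧ a < b ∧ 3 * a < a' + 2 * b ∧
      ((L : ℝ≥0) + 3) * a < (L + 1) * b ∧ 0 < μ (Set.Icc a' a) ∧ 0 < μ (Set.Ici b) := by
  have h1 : ∃ s t : ℝ≥0, s ∈ μ.support ∧ t ∈ μ.support ∧ s < t := by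
    obtain ⟨s, hs⟩ := Measure.nonempty_support (IsProbabilityMeasure.ne_zero μ)
    have h2 : ∃ t ∈ μ.support, t ≠ s := by
      by_contra hcon
      push Not at hcon
      have h3 : (Set.univ : Set ℝ≥0) ⊆ {s} ∪ μ.supportᶜ := by
        intro x _
        by_cases hx : x ∈ μ.support
        · exact Or.inl (hcon x hx)
        · exact Or.inr hx
      have h4 := measure_mono (μ := μ) h3
      rw [measure_univ] at h4
      have h5 := h4.trans (measure_union_le _ _)
      rw [Measure.measure_compl_support, add_zero] at h5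
      exact hμ s (le_antisymm prob_le_one h5)
    obtain ⟨t, ht, hts⟩ := h2
    rcases lt_or_gt_of_ne hts with h | h
    · exact ⟨t, s, ht, hs, h⟩
    · exact ⟨s, t, hs, ht, h⟩
  obtain ⟨s, t, hs, ht, hst⟩ := h1
  have hst' : (s : ℝ) < t := by exact_mod_cast hst
  set δ : ℝ≥0 := (t - s) / 4 with hδ
  have hδr : (δ : ℝ) = ((t : ℝ) - s) / 4 := by
    rw [hδ]
    push_cast [NNReal.coe_sub hst.le]
    ring
  have hδ0 : (0 : ℝ) < δ := by rw [hδr]; linarith
  have hδt : δ ≤ t := by
    have : (δ : ℝ) ≤ t := by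
      rw [hδr]
      have := s.coe_nonneg
      linarith
    exact_mod_cast this
  have hbr : ((t - δ : ℝ≥0) : ℝ) = t - δ := NNReal.coe_sub hδt
  have har : (s : ℝ) - δ ≤ ((s - δ : ℝ≥0) : ℝ) := by
    rcases le_total δ s with h | h
    · rw [NNReal.coe_sub h]
    · rw [tsub_eq_zero_of_le h]
      have : (s : ℝ) ≤ δ := by exact_mod_cast h
      simp only [NNReal.coe_zero]
      linarith
  obtain ⟨L, hL⟩ := exists_nat_gt (((s : ℝ) + δ) / δ)
  rw [div_lt_iff₀ hδ0] at hL
  refine ⟨L + 1, s - δ, s + δ, t - δ, by omega, ?_, ?_, ?_, ?_, ?_⟩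
  · have : ((s + δ : ℝ≥0) : ℝ) < ((t - δ : ℝ≥0) : ℝ) := by
      rw [hbr]
      push_cast
      linarith
    exact_mod_cast this
  · have : ((3 * (s + δ) : ℝ≥0) : ℝ) < ((s - δ + 2 * (t - δ) : ℝ≥0) : ℝ) := by
      rw [NNReal.coe_add, NNReal.coe_mul 2, hbr]
      push_cast
      linarith
    exact_mod_cast this
  · have : (((((L + 1 : ℕ) : ℝ≥0) + 3) * (s + δ) : ℝ≥0) : ℝ) <
        (((((L + 1 : ℕ) : ℝ≥0) + 1) * (t - δ) : ℝ≥0) : ℝ) := by
      rw [NNReal.coe_mul, NNReal.coe_mul, hbr]
      push_cast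
      have h5 : (t : ℝ) = s + 4 * δ := by linarith
      rw [h5]
      have h6 := s.coe_nonneg
      have h7 : (0 : ℝ) ≤ L := Nat.cast_nonneg L
      nlinarith
    exact_mod_cast this
  · refine (Measure.mem_support_iff_forall _).1 hs _ ?_
    rw [Metric.mem_nhds_iff]
    refine ⟨δ, hδ0, fun x hx => ?_⟩
    rw [Metric.mem_ball, NNReal.dist_eq, abs_lt] at hx
    constructor
    · rw [tsub_le_iff_right]
      have : (s : ℝ) ≤ x + δ := by linarith
      exact_mod_cast this
    · have : (x : ℝ) ≤ s + δ := by linarith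
      exact_mod_cast this
  · refine (Measure.mem_support_iff_forall _).1 ht _ (Ici_mem_nhds ?_)
    have : ((t - δ : ℝ≥0) : ℝ) < t := by
      rw [hbr]
      linarith
    exact_mod_cast this

theorem prob_Bi_lt (μ : Measure ℝ≥0) [IsProbabilityMeasure μ] (hμ : ∀ x, μ {x} ≠ 1) :
    Measure.infinitePi (fun _ : E => μ) Bi < 1 := by
  obtain ⟨L, a', a, b, hL, hab, h2, h3, h4, h5⟩ := exists_params μ hμ
  set P := Measure.infinitePi (fun _ : E => μ) with hP
  have hsub : Bi ⊆ K (L + 1) := by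
    rintro ω ⟨γ, h0, hG⟩
    rw [geo_iff Set.ordConnected_univ] at hG
    exact mem_K_of_geo h0 (hG.mono (Set.subset_univ _))
  have hdisj : Pat L a' a b ⊆ (K (L + 1))ᶜ := by
    rintro ω hω ⟨x, hx⟩
    have h0 : ((x 0 : V)) = 0 := by
      have := mem_Box.1 (x 0).2
      simp only [abs_zero, abs_nonpos_iff] at this
      exact Prod.ext this.1 this.2
    exact no_long hL le_rfl hab h2 h3 hω h0 hx
  have hpos : P (Pat L a' a b) ≠ 0 := by
    have h6 : ∀ e ∈ (Box (L + 1) ×ˢ (Finset.univ : Finset Bool) : Finset E),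
        MeasurableSet (PatSet a' a b e) := by
      intro e _
      unfold PatSet
      split_ifs
      · exact measurableSet_Ici
      · exact measurableSet_Icc
    rw [hP, Pat, Measure.infinitePi_pi _ h6, Finset.prod_ne_zero_iff]
    intro e _
    unfold PatSet
    split_ifs
    · exact h5.ne'
    · exact h4.ne'
  have h7 : P (K (L + 1))ᶜ ≠ 0 := fun h => hpos (measure_mono_null hdisj h)
  refine lt_of_le_of_lt (measure_mono hsub) ?_
  refine lt_of_le_of_ne prob_le_one fun h => h7 ?_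
  exact (prob_compl_eq_zero_iff (isClosed_K _).measurableSet).2 h

/-- Let `μ` be a probability measure on `[0, ∞)` which is not a point mass (in particular any `μ`
without atoms) and `P` the law of i.i.d. edge weights with common law `μ` on the edges of the
planar lattice.

(1) For every environment `ω`, every infinite geodesic `γ 0, γ 1, …` of `ω` and every probability
measure `ν` which is the weak limit (possibly only along a subsequence) of the empirical measures
of the environment seen along it: `ν`-almost every environment has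
a bi-infinite geodesic through the origin; `P` is not absolutely continuous with respect to `ν`
(so `ν ≠ P`); and if `P`-almost surely there is no bi-infinite geodesic, then `ν` and `P` are
mutually singular.

(2) The set `Bi` of environments with a bi-infinite geodesic through the origin, to which `ν`
gives probability `1`, has `P`-probability less than `1`. -/
theorem result (μ : Measure ℝ≥0) [IsProbabilityMeasure μ] (hμ : ∀ x, μ {x} ≠ 1) :
    (∀ (ω : Env) (γ : ℤ → V) (ν : Measure Env), IsProbabilityMeasure ν →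
      IsGeodesicOn ω γ (Set.Ici 0) → IsWeakLimit ω γ ν →
        (∀ᵐ ω' ∂ν, ω' ∈ Bi) ∧
        ¬ (Measure.infinitePi (fun _ : E => μ) ≪ ν) ∧
        ((∀ᵐ ω' ∂(Measure.infinitePi (fun _ : E => μ)),
            ¬ ∃ γ' : ℤ → V, IsGeodesicOn ω' γ' Set.univ) →
          ν ⟂ₘ Measure.infinitePi (fun _ : E => μ))) ∧
    Measure.infinitePi (fun _ : E => μ) Bi < 1 := by
  refine ⟨fun ω γ ν hν hG hlim => ?_, prob_Bi_lt μ hμ⟩
  have h1 := limit_Bi hG hlim
  refine ⟨h1, fun hac => ?_, fun hno => ?_⟩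
  · have h2 : ∀ᵐ ω' ∂(Measure.infinitePi (fun _ : E => μ)), ω' ∈ Bi := hac.ae_le h1
    have h3 := prob_Bi_lt μ hμ
    have h4 : Measure.infinitePi (fun _ : E => μ) Bi = 1 := by
      refine le_antisymm prob_le_one ?_
      have h5 : Measure.infinitePi (fun _ : E => μ) Biᶜ = 0 := h2
      have h6 := measure_union_le (μ := Measure.infinitePi (fun _ : E => μ)) Bi Biᶜ
      rw [Set.union_compl_self, measure_univ, h5, add_zero] at h6
      exact h6
    rw [h4] at h3
    exact lt_irrefl _ h3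
  · set P := Measure.infinitePi (fun _ : E => μ) with hP
    have h2 : P Bi = 0 := by
      rw [← nonpos_iff_eq_zero]
      refine le_trans (measure_mono (t := {ω' | ¬ ¬ ∃ γ' : ℤ → V, IsGeodesicOn ω' γ' Set.univ})
        ?_) (le_of_eq hno)
      rintro ω' ⟨γ', _, hγ'⟩
      exact not_not.2 ⟨γ', hγ'⟩
    refine Measure.MutuallySingular.symm ⟨toMeasurable P Bi, measurableSet_toMeasurable _ _, ?_, ?_⟩
    · rw [measure_toMeasurable, h2]
    · exact measure_mono_null (Set.compl_subset_compl.2 (subset_toMeasurable P Bi)) h1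

end Pool.Agent.Results.MP_b5523b_pr.BigeodesicEnvironment
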